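import Mathlib
import Pool.Agent.Q90.N2Fin

/-!
An algebra with exactly two equivalence classes of Banach algebra norms.
Definitions: `Pool.Agent.Q90.N2Defs`.
-/

namespace Pool.Agent.Results.MP_357fb8_an.TwoNorms

/-- There is a (unital, associative) complex algebra `A` which carries exactly two equivalence
classes of Banach algebra norms, that is, `N(A) = 2`. -/
theorem result : ∃ (A : Type) (_ : Ring A) (_ : Algebra ℂ A),
    ENat.card (Q90.N2.NormClasses A) = 2 :=
  Q90.N2.main

end Pool.Agent.Results.MP_357fb8_an.TwoNorms
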